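import Pool.Agent.X323.GI.CycHyp

/-!
# Cyclic hypersurfaces in the range of the Kobayashi conjecture

Let `n ≥ 1` and `d ≥ 2 n + 2`. For a very general form `F` of degree `d` in `n + 1` variables we consider
the cyclic hypersurface `X = (y ^ d = F (x))`, of degree `d` and dimension `n`, in the projective space of
dimension `n + 1`. It is smooth, and we prove that

* all entire curves in `X` that are built from elliptic functions and any jointly universal family (for
  example the Riemann zeta function, by Voronin's theorem) are constant;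
* all holomorphic maps from one-dimensional complex tori to `X` are constant;
* all closed subvarieties of `X` of positive dimension are of general type;
* `X` is algebraically hyperbolic: `(d - 1 - 2 n) deg f^* O(1) ≤ 2 g - 2` for all nonconstant maps `f` from
  smooth projective curves of genus `g` to `X`.

The degrees are exactly those of the Kobayashi conjecture. These hypersurfaces are not very general: they
have a cyclic automorphism group of order `d`, and form a family of large codimension.

A family `u` of meromorphic functions on the plane is called jointly universal if the translates of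
every finite subfamily approximate all tuples of zero-free entire functions uniformly on some disc. For
a lattice let `B` be the ring of the polynomials in the elliptic functions of the lattice, the functions
`u j` and all their derivatives. A curve is built from elliptic functions and `u` if for some lattice it
is algebraic over `B`, or has homogeneous coordinates in the smallest set of meromorphic functions
which contains the quotients of elements of `B` and is closed under sums, products and meromorphic
solutions of linear systems `y' = A y` with coefficients in the set.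
-/

set_option autoImplicit false

namespace Pool.Agent.Results.MP_b509a1_ag.CyclicHypersurfaces

open MvPolynomial FF Pool.Agent.W603.PV Pool.Agent.W603.LV Pool.Agent.W602.GT
open scoped LinearAlgebra.Projectivization
open Pool.Agent.TH143.EL (HolMap Ell)
open Pool.Agent.Y377.IL (IteratedOver AlgebraicOver)
open Pool.Agent.X316.ZG (JointlyUniversal)
open Pool.Agent.X316.ZE (dringB)

/-- The property `P` holds for the very general forms of degree `d` in `N + 1` variables: for all
forms `F` at whose coefficients none of the nonzero polynomials in some countable set vanishes. -/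
def VeryGenerally (N d : ℕ) (P : MvPolynomial (Fin (N + 1)) ℂ → Prop) : Prop :=
  ∃ Ps : Set (MvPolynomial {I : Fin (N + 1) →₀ ℕ // I.degree = d} ℂ), Ps.Countable ∧ 0 ∉ Ps ∧
    ∀ F : MvPolynomial (Fin (N + 1)) ℂ, F.IsHomogeneous d →
      (∀ p ∈ Ps, eval (fun I => F.coeff I.1) p ≠ 0) → P F

/-- The form `y ^ d - F (x)` in `n + 2` variables, where `y` is the last variable. -/
noncomputable def cyclic {n : ℕ} (d : ℕ) (F : MvPolynomial (Fin (n + 1)) ℂ) :
    MvPolynomial (Fin (n + 2)) ℂ :=
  X (Fin.last (n + 1)) ^ d - rename Fin.castSucc F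

/-- The hypersurface `G = 0` is smooth. -/
def Smooth {N : ℕ} (G : MvPolynomial (Fin (N + 1)) ℂ) : Prop :=
  ∀ z : Fin (N + 1) → ℂ, (∀ j, eval z (pderiv j G) = 0) → z = 0

/-- All entire curves in `G = 0` that are built from elliptic functions and a jointly universal family
are constant. -/
def BuiltConstant {N : ℕ} (G : MvPolynomial (Fin (N + 1)) ℂ) : Prop :=
  ∀ (ι : Type) (u : ι → ℂ → ℂ), JointlyUniversal u → ∀ ω₁ ω₂ : ℂ, LinearIndependent ℝ ![ω₁, ω₂] →
    ∀ f : ℂ → ℙ ℂ (Fin (N + 1) → ℂ), HolMap f →
      (IteratedOver (dringB (Ell ω₁ ω₂) u) f ∨ AlgebraicOver (dringB (Ell ω₁ ω₂) u) f) →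
      (∀ z, eval (f z).rep G = 0) → ∀ z w, f z = f w

/-- All holomorphic maps from one-dimensional complex tori to `G = 0` are constant. -/
def TorusConstant {N : ℕ} (G : MvPolynomial (Fin (N + 1)) ℂ) : Prop :=
  ∀ ω₁ ω₂ : ℂ, LinearIndependent ℝ ![ω₁, ω₂] → ∀ f : ℂ → ℙ ℂ (Fin (N + 1) → ℂ), HolMap f →
    (∀ z, f (z + ω₁) = f z) → (∀ z, f (z + ω₂) = f z) → (∀ z, eval (f z).rep G = 0) →
    ∀ z w, f z = f w

/-- All closed subvarieties of positive dimension of `G = 0` are of general type: `K` is the function
field, or a finite extension of it, and `z` the generic point of the subvariety. -/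
def LangHyperbolic {N : ℕ} (G : MvPolynomial (Fin (N + 1)) ℂ) : Prop :=
  ∀ (K : Type) [Field K] [Algebra ℂ K] (w : ℕ) (z : Fin (N + 1) → K), 0 < w → z ≠ 0 →
    aeval z G = 0 → Algebra.trdeg ℂ K = w → Algebra.IsAlgebraic (coords ℂ z) K →
    GeneralType ℂ K w

/-- `κ deg f^* O(1) ≤ 2 g - 2` for all nonconstant maps `f` from smooth projective curves of genus `g`,
with function field `L`, to `G = 0`; the map is given by a point `z` over `L`. -/
def AlgHyperbolic {N : ℕ} (κ : ℤ) (G : MvPolynomial (Fin (N + 1)) ℂ) : Prop :=
  ∀ (L : Type) [Field L] [Algebra ℂ L] [IsFF ℂ L] (z : Fin (N + 1) → L), z ≠ 0 →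
    aeval z G = 0 → (∃ i j, z j ≠ 0 ∧ z i / z j ∉ Set.range (algebraMap ℂ L)) →
    κ * pht ℂ z ≤ canDeg ℂ L

theorem result {n d : ℕ} (hn : 1 ≤ n) (hd : 2 * n + 2 ≤ d) :
    (VeryGenerally n d fun F => Smooth (cyclic d F) ∧ BuiltConstant (cyclic d F) ∧
      TorusConstant (cyclic d F) ∧ LangHyperbolic (cyclic d F) ∧
      AlgHyperbolic ((d : ℤ) - 1 - 2 * n) (cyclic d F)) ∧
    JointlyUniversal fun _ : Unit => riemannZeta := by
  refine ⟨⟨Pool.Agent.X323.GI.Rats _, Pool.Agent.X323.GI.rats_countable,
    Pool.Agent.X323.GI.rats_ne, fun F hF hP => ?_⟩, Pool.Agent.X316.ZG.zeta_universal⟩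
  have hind := Pool.Agent.X323.GI.rats_indep hP
  obtain ⟨h1, h2, h3, h4⟩ := Pool.Agent.X323.GI.cychyp_main hF hd hind
  exact ⟨Pool.Agent.X323.GI.cyc_smooth hF (by omega) hind, h3, h2,
    fun K _ _ w z hw hz0 hz htr halg => h1 K w z hw ⟨⟨hz0, fun _ => hz⟩, htr, halg⟩, h4⟩

end Pool.Agent.Results.MP_b509a1_ag.CyclicHypersurfaces
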