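import Pool.Agent.X323.GI.Dyn
import Pool.Agent.X323.GI.Vg

/-!
# Sequences of points and group curves on very general hypersurfaces

Let `X = {F = 0}` be a hypersurface of degree `d` in the complex projective space of dimension
`n + 1`. A *group curve* is an entire curve `φ` in a projective space such that each translate
`φ(z + t)` is the image of `φ(z)` under a rational map (`GroupCurve`); the one-parameter subgroups of
algebraic groups (for instance of abelian varieties) and their translates are curves of this kind.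
We prove that for `d ≥ 2 n + 2` and very general `X` all images of group curves in `X` under rational
maps are constant, and that all sequences of points of `X` that are given by towers of linear
recurrences, or have coordinates in a finitely generated field of sequences (for instance the orbits
of rational maps), are eventually periodic. Moreover, if `n ≥ 5` (and `d ≥ 1` is arbitrary), or
`d ≤ 2 n - 1`, or `2 d ≥ 3 n + 5`, then each of these properties of the very general hypersurface
holds if and only if `d ≥ 2 n`, if and only if `X` contains no line.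

The definitions `GroupCurve`, `GrpImage` are in `Pool/Agent/X332/GS/Grp.lean`,
`Pool/Agent/X332/GS/GrpSp.lean`; `TowersPeriodic` and `FieldsPeriodic` in
`Pool/Agent/X332/GS/Sand.lean`.
-/

set_option autoImplicit false

namespace Pool.Agent.Results.MP_b509a1_ag.DynamicalHypersurfaces

open MvPolynomial FF Pool.Agent.W602.GT
open Pool.Agent.X332.GS (GrpImage TowersPeriodic FieldsPeriodic)

/-- The property `P` holds for the very general forms of degree `d` in `N + 1` variables: for all
forms `F` at whose coefficients none of the nonzero polynomials in some countable set vanishes. -/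
def VeryGenerally (N d : ℕ) (P : MvPolynomial (Fin (N + 1)) ℂ → Prop) : Prop :=
  ∃ Ps : Set (MvPolynomial {I : Fin (N + 1) →₀ ℕ // I.degree = d} ℂ), Ps.Countable ∧ 0 ∉ Ps ∧
    ∀ F : MvPolynomial (Fin (N + 1)) ℂ, F.IsHomogeneous d →
      (∀ p ∈ Ps, eval (fun I => F.coeff I.1) p ≠ 0) → P F

/-- The family of equations with one element `F`. -/
def eqn {N : ℕ} (F : MvPolynomial (Fin (N + 1)) ℂ) : Unit → MvPolynomial (Fin (N + 1)) ℂ := fun _ => F

/-- All images of group curves in the hypersurface `F = 0` under rational maps are constant. -/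
def GroupHyperbolic {N : ℕ} (F : MvPolynomial (Fin (N + 1)) ℂ) : Prop := ∀ y, ¬ GrpImage (eqn F) y

/-- All closed subvarieties of positive dimension of `F = 0` are of general type: `K` is the function
field, or a finite extension of it, and `y` the generic point of the subvariety. -/
def LangHyperbolic {N : ℕ} (F : MvPolynomial (Fin (N + 1)) ℂ) : Prop :=
  ∀ (K : Type) [Field K] [Algebra ℂ K] (w : ℕ) (y : Fin (N + 1) → K), 0 < w →
    (y ≠ 0 ∧ aeval y F = 0) → Algebra.trdeg ℂ K = w → Algebra.IsAlgebraic (coords ℂ y) K →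
      GeneralType ℂ K w

/-- The hypersurface `F = 0` contains no line; a line is given by a vector space `W` of dimension
two. -/
def NoLine {N : ℕ} (F : MvPolynomial (Fin (N + 1)) ℂ) : Prop :=
  ∀ W : Submodule ℂ (Fin (N + 1) → ℂ), Module.finrank ℂ W = 2 → ∃ v ∈ W, eval v F ≠ 0

theorem all_iff {N : ℕ} {F : MvPolynomial (Fin (N + 1)) ℂ} :
    Pool.Agent.Y741.AllX (eqn F) ↔ LangHyperbolic F :=
  ⟨fun h K _ _ w y hw hy htr halg => h K w y hw ⟨⟨hy.1, fun _ => hy.2⟩, htr, halg⟩,
    fun h K _ _ w y hw hy => h K w y hw ⟨hy.1.1, hy.1.2 ()⟩ hy.2.1 hy.2.2⟩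

theorem line_iff {N : ℕ} {F : MvPolynomial (Fin (N + 1)) ℂ} :
    (∀ W, ¬ Pool.Agent.Y741.LineX (eqn F) W) ↔ NoLine F := by
  refine forall_congr' fun W => ⟨fun h hW => ?_, fun h hW => ?_⟩
  · by_contra hcon
    push Not at hcon
    exact h ⟨hW, fun _ => hcon⟩
  · obtain ⟨v, hv, hne⟩ := h hW.1
    exact hne (hW.2 () v hv)

/-- **Sequences and group curves on very general hypersurfaces** of degree `d` in the projective
space of dimension `n + 1`. -/
theorem result {n d : ℕ} (hn : 1 ≤ n) :
    -- (1) the range of the Kobayashi conjecture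
    (2 * n + 2 ≤ d → VeryGenerally (n + 1) d fun F =>
      GroupHyperbolic F ∧ TowersPeriodic (eqn F) ∅ ∧ FieldsPeriodic (eqn F) ∅) ∧
    -- (2) the equivalences
    (1 ≤ d → (5 ≤ n ∨ d + 1 ≤ 2 * n ∨ 3 * n + 5 ≤ 2 * d) → VeryGenerally (n + 1) d fun F =>
      [GroupHyperbolic F, TowersPeriodic (eqn F) ∅, FieldsPeriodic (eqn F) ∅, LangHyperbolic F,
        NoLine F, 2 * n ≤ d].TFAE) := by
  have key : 1 ≤ d → (5 ≤ n ∨ d + 1 ≤ 2 * n ∨ 3 * n + 5 ≤ 2 * d) →
      VeryGenerally (n + 1) d fun F =>
      [GroupHyperbolic F, TowersPeriodic (eqn F) ∅, FieldsPeriodic (eqn F) ∅, LangHyperbolic F,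
        NoLine F, 2 * n ≤ d].TFAE := by
    intro hd0 hdim
    refine ⟨Pool.Agent.X323.GI.Rats _, Pool.Agent.X323.GI.rats_countable,
      Pool.Agent.X323.GI.rats_ne, fun F hF hP => ?_⟩
    have hind := Pool.Agent.X323.GI.ind_unit (Pool.Agent.X323.GI.rats_indep hP)
    have h := Pool.Agent.X323.GI.dyn_tfae (k0 := ℚ) (n := n + 1) (A := Unit) (d := fun _ => d)
      (H := eqn F) (by omega) (fun _ => hd0) (fun _ => hF) hind (by
        simp only [Fintype.card_unit, Finset.univ_unique, Finset.sum_const, Finset.card_singleton,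
          one_smul]
        omega)
    rw [all_iff, line_iff] at h
    have h6 : 2 * (n + 1) - 1 ≤ ∑ _a : Unit, (d + 1) ↔ 2 * n ≤ d := by
      simp only [Finset.univ_unique, Finset.sum_const, Finset.card_singleton, one_smul]
      omega
    rw [h6] at h
    exact h
  refine ⟨fun hd => ?_, key⟩
  obtain ⟨Ps, h1, h2, h3⟩ := key (by omega) (by omega)
  refine ⟨Ps, h1, h2, fun F hF hP => ?_⟩
  have h4 := h3 F hF hP
  have hd' : 2 * n ≤ d := by omega
  exact ⟨(h4.out 0 5).2 hd', (h4.out 1 5).2 hd', (h4.out 2 5).2 hd'⟩

end Pool.Agent.Results.MP_b509a1_ag.DynamicalHypersurfaces
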