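import Pool.Agent.TH182.VI.Main
import Pool.Agent.X316.ZE.Pub

/-!
# Curves built from elliptic functions and the zeta function in very general hypersurfaces

Let `d ≥ 2 n + 2` and let `X` be a very general hypersurface of degree `d` in the projective space
of dimension `n + 1`. We prove that every entire curve in `X` which is built from elliptic functions
and from a jointly universal family, for example from elliptic functions, the Riemann zeta function
and its derivatives, is constant.

A family `u` of meromorphic functions on the plane is called jointly universal if the translates of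
every finite subfamily approximate all tuples of zero-free entire functions uniformly on some disc.
By Voronin's theorem the Riemann zeta function alone is such a family. Let `B` be the ring of the
polynomials in the elliptic functions with given periods, the functions `u j` and all their
derivatives. A curve is built from these functions if it is algebraic over `B`, or if it has
homogeneous coordinates in the smallest set of meromorphic functions which contains the quotients
of elements of `B` and is closed under sums, products and meromorphic solutions of linear systems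
`y' = A y` with coefficients in the set.
-/

set_option autoImplicit false

namespace Pool.Agent.Results.MP_b509a1_ag.UniversalHypersurfaceCurves

open Filter MvPolynomial
open scoped LinearAlgebra.Projectivization
open Pool.Agent.TH143.EL (HolMap InV TorusMapsIn Ell)
open Pool.Agent.TH182.VI (CI coeffs TorusConst torus_const very_general)
open Pool.Agent.Y377.IL (IteratedOver AlgebraicOver)
open Pool.Agent.X316.ZG (JointlyUniversal)
open Pool.Agent.X316.ZE (dringB)

/-- The curve `f` is built from the elliptic functions with the periods `ω₁` and `ω₂` and the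
functions `u j`: with `B` the ring of the polynomials in these elliptic functions, the functions
`u j` and all their derivatives, the curve has homogeneous coordinates in the smallest set of
meromorphic functions which contains the quotients of elements of `B` and is closed under sums,
products and meromorphic solutions of linear systems over the set, or it is algebraic over `B`. -/
def BuiltFrom {N : ℕ} {ι : Type} (ω₁ ω₂ : ℂ) (u : ι → ℂ → ℂ) (f : ℂ → ℙ ℂ (Fin (N + 1) → ℂ)) :
    Prop :=
  IteratedOver (dringB (Ell ω₁ ω₂) u) f ∨ AlgebraicOver (dringB (Ell ω₁ ω₂) u) f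

/-- Every entire curve in the hypersurface `F = 0` which is built from elliptic functions and a
jointly universal family is constant. -/
def UniversalHyperbolic {N : ℕ} (F : MvPolynomial (Fin (N + 1)) ℂ) : Prop :=
  ∀ ω₁ ω₂ : ℂ, LinearIndependent ℝ ![ω₁, ω₂] → ∀ (ι : Type) (u : ι → ℂ → ℂ), JointlyUniversal u →
    ∀ f : ℂ → ℙ ℂ (Fin (N + 1) → ℂ), HolMap f → BuiltFrom ω₁ ω₂ u f →
      (∀ z, eval (f z).rep F = 0) → ∀ z w, f z = f w

theorem const_of {N : ℕ} {F : MvPolynomial (Fin (N + 1)) ℂ} {d : ℕ} (hF : F.IsHomogeneous d)
    (h : TorusConst fun _ : Unit => F) : UniversalHyperbolic F := by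
  intro ω₁ ω₂ hω ι u hu f hf hb hX
  by_contra hcon
  have hnc : ∃ z w, f z ≠ f w := by
    by_contra h0
    push Not at h0
    exact hcon h0
  have hT : TorusMapsIn (Ideal.span {F}) (⊤ : Ideal (MvPolynomial (Fin (N + 1)) ℂ)) := by
    intro ω₁ ω₂ hω g hg h1 h2 hgX hgnc
    exfalso
    obtain ⟨z, w, hzw⟩ := hgnc
    exact hzw (h hω (Pool.Agent.TH182.VG.holo_of_holMap hg) h1 h2
      (fun _ z => hgX z F (Ideal.subset_span rfl) ⟨d, hF⟩) z w)
  have h1 := Pool.Agent.X316.ZE.built_torus hT hf ⟨ω₁, ω₂, hω, ι, u, hu, hb⟩ (fun z G hG _ => by
    have h1 : Ideal.span {F} ≤ RingHom.ker (eval (f z).rep) := by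
      rw [Ideal.span_le, Set.singleton_subset_iff]
      exact hX z
    exact h1 hG) hnc 0
  have h2 := h1 1 (Submodule.mem_top) ⟨0, isHomogeneous_one _ _⟩
  rw [map_one] at h2
  exact one_ne_zero h2

theorem trdeg_le {N : ℕ} (F : Empty → MvPolynomial (Fin (N + 1)) ℂ) :
    Algebra.trdeg ℂ (MvPolynomial (Fin (N + 1)) ℂ ⧸ Ideal.span (Set.range F)) ≤
      ((N : ℕ) : Cardinal) + 1 := by
  have h1 := trdeg_le_of_surjective (Ideal.Quotient.mkₐ ℂ (Ideal.span (Set.range F)))
    (Ideal.Quotient.mkₐ_surjective ℂ _)
  rw [MvPolynomial.trdeg_of_isDomain] at h1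
  refine h1.trans (le_of_eq ?_)
  simp

/-- **Curves built from elliptic functions and universal functions in very general hypersurfaces.**
Let `d ≥ 2 n + 2`.

(1) There is a countable set of nonzero polynomials in the coefficients of the forms of degree `d`
in `n + 2` variables such that for all forms `F` at which none of them vanishes all entire curves in
`F = 0` which are built from elliptic functions and a jointly universal family are constant.

(2) The Riemann zeta function is universal. -/
theorem result {n d : ℕ} (hd : 2 * n + 2 ≤ d) :
    (∃ Ps : Set (MvPolynomial (CI (n + 1) fun _ : Fin 1 => d) ℂ), Ps.Countable ∧ 0 ∉ Ps ∧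
      ∀ F : MvPolynomial (Fin (n + 2)) ℂ, F.IsHomogeneous d →
        (∀ P ∈ Ps, eval (coeffs (fun _ : Fin 1 => d) fun _ => F) P ≠ 0) →
        UniversalHyperbolic F) ∧
    JointlyUniversal fun _ : Unit => riemannZeta := by
  refine ⟨?_, Pool.Agent.X316.ZG.zeta_universal⟩
  obtain ⟨k₁, hk₁, hmain⟩ := torus_const (N := n + 1) (m := n + 1) (κ := Empty)
    (fun x => x.elim) (fun x => x.elim) (by exact_mod_cast trdeg_le (N := n + 1) fun x => x.elim)
  obtain ⟨Ps, h1, h2, h3⟩ := very_general (N := n + 1) k₁ fun _ : Fin 1 => d
  refine ⟨Ps, h1, h2, fun F hF hP => const_of hF ?_⟩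
  have hd' : 2 * (n + 1) + 1 ≤ ∑ i : Fin 1, (fun _ : Fin 1 => d) i + 1 := by
    simp
    omega
  intro ω₁ ω₂ hω f hf hf1 hf2 hX
  exact hmain 1 (fun _ => d) (fun _ => F) (fun _ => hF) (h3 (fun _ => F) hP) hd' hω hf hf1 hf2
    fun i z => by
    rcases i with i | i
    · exact i.elim
    · exact hX () z

end Pool.Agent.Results.MP_b509a1_ag.UniversalHypersurfaceCurves
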